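import Pool.Agent.H27.LV.Targets

/-!
Numbers of monomials (MP_70ba79_ag, module CRD).
-/

set_option autoImplicit false

namespace Pool.Agent.H2.LV

open Pool.Agent.H27.LV

lemma rec_card (h : T_SPL) (n d : ℕ) : Fintype.card (Mon (n + 1) (d + 1)) =
    Fintype.card (Mon (n + 1) d) + Fintype.card (Mon n (d + 1)) := by
  obtain ⟨e, -, -⟩ := h n d 0
  rw [← Fintype.card_congr e, Fintype.card_sum, add_comm]

lemma card_zero (n : ℕ) : Fintype.card (Mon n 0) = 1 := by
  rw [Fintype.card_eq_one_iff]
  refine ⟨⟨fun _ => 0, by simp⟩, ?_⟩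
  rintro ⟨f, hf⟩
  apply Subtype.ext
  funext i
  have := Finset.single_le_sum (f := f) (fun _ _ => Nat.zero_le _) (Finset.mem_univ i)
  simp only
  omega

lemma card_one (d : ℕ) : Fintype.card (Mon 1 d) = 1 := by
  rw [Fintype.card_eq_one_iff]
  refine ⟨⟨fun _ => d, by simp⟩, ?_⟩
  rintro ⟨f, hf⟩
  apply Subtype.ext
  funext i
  rw [Fin.sum_univ_one] at hf
  rw [Subsingleton.elim i 0]
  exact hf

lemma card_empty (d : ℕ) : Fintype.card (Mon 0 (d + 1)) = 0 := by
  rw [Fintype.card_eq_zero_iff]
  constructor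
  rintro ⟨f, hf⟩
  rw [Fin.sum_univ_zero] at hf
  omega

theorem crd (h : T_SPL) : T_CRD := by
  intro n
  induction n with
  | zero =>
    intro d
    rw [card_one, Nat.choose_zero_right]
  | succ n ih =>
    intro d
    induction d with
    | zero => rw [card_zero, add_zero, Nat.choose_self]
    | succ d ihd =>
      rw [rec_card h, ihd, ih (d + 1)]
      have h1 : n + 1 + (d + 1) = (n + 1 + d) + 1 := by ring
      have h2 : n + (d + 1) = n + 1 + d := by ring
      rw [h1, h2, Nat.choose_succ_succ, add_comm]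

theorem crr (h : T_SPL) : T_CRR := by
  intro n d
  refine ⟨?_, rec_card h n d⟩
  cases n with
  | zero => rw [card_empty, zero_mul, mul_zero]
  | succ m =>
    rw [crd h (m + 1) d, crd h m (d + 1)]
    have h1 := Nat.choose_succ_right_eq (m + (d + 1)) m
    have h2 : m + (d + 1) - m = d + 1 := by omega
    have h3 : m + 1 + d = m + (d + 1) := by ring
    rw [h2] at h1
    rw [h3, mul_comm, h1, mul_comm]

end Pool.Agent.H2.LV
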